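import Mathlib

set_option autoImplicit false
set_option linter.unusedSectionVars false

/-!
# Arrays of strength four and index one with `n + 2` columns, `n` even: touching is transitive
-/

namespace Run7.h412.KP

open Finset

variable {ι W A : Type} [Fintype ι] [DecidableEq ι] [Fintype W] [DecidableEq W] [Fintype A]
  [DecidableEq A]

/-- strength four and index one -/
def OA (c : ι → W → A) : Prop :=
  ∀ i j k l : ι, i ≠ j → i ≠ k → i ≠ l → j ≠ k → j ≠ l → k ≠ l → ∀ a b d e : A,
    ∃! x, c i x = a ∧ c j x = b ∧ c k x = d ∧ c l x = e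

/-- the columns on which two words agree -/
def ag (c : ι → W → A) (x y : W) : Finset ι := univ.filter fun i => c i x = c i y

theorem mem_ag {c : ι → W → A} {x y : W} {i : ι} : i ∈ ag c x y ↔ c i x = c i y := by
  simp [ag]

theorem ag_comm (c : ι → W → A) (x y : W) : ag c x y = ag c y x := by
  ext i
  rw [mem_ag, mem_ag]
  exact eq_comm

variable {c : ι → W → A}

theorem OA.eq (h : OA c) {x y : W} {i j k l : ι} (h1 : i ≠ j) (h2 : i ≠ k) (h3 : i ≠ l)
    (h4 : j ≠ k) (h5 : j ≠ l) (h6 : k ≠ l) (e1 : c i x = c i y) (e2 : c j x = c j y)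
    (e3 : c k x = c k y) (e4 : c l x = c l y) : x = y :=
  (h i j k l h1 h2 h3 h4 h5 h6 _ _ _ _).unique ⟨e1, e2, e3, e4⟩ ⟨rfl, rfl, rfl, rfl⟩

theorem OA.card_ag (h : OA c) {x y : W} (hxy : x ≠ y) : (ag c x y).card ≤ 3 := by
  by_contra hcon
  push Not at hcon
  obtain ⟨T, hT, hTc⟩ := Finset.exists_subset_card_eq hcon
  obtain ⟨i, j, k, l, h1, h2, h3, h4, h5, h6, rfl⟩ := Finset.card_eq_four.1 hTc
  apply hxy
  refine h.eq h1 h2 h3 h4 h5 h6 (mem_ag.1 (hT ?_)) (mem_ag.1 (hT ?_)) (mem_ag.1 (hT ?_))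
    (mem_ag.1 (hT ?_)) <;> simp

/-- the words with three prescribed values -/
def X3 (c : ι → W → A) (i j k : ι) (a b d : A) : Finset W :=
  univ.filter fun x => c i x = a ∧ c j x = b ∧ c k x = d

theorem mem_X3 {i j k : ι} {a b d : A} {x : W} :
    x ∈ X3 c i j k a b d ↔ c i x = a ∧ c j x = b ∧ c k x = d := by
  simp [X3]

theorem exists_fourth (hι : 4 ≤ Fintype.card ι) (i j k : ι) : ∃ l, l ≠ i ∧ l ≠ j ∧ l ≠ k := by
  have h1 : (({i, j, k} : Finset ι)ᶜ).Nonempty := by
    rw [← Finset.card_pos, Finset.card_compl]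
    have := Finset.card_le_three (a := i) (b := j) (c := k)
    omega
  obtain ⟨l, hl⟩ := h1
  rw [mem_compl] at hl
  simp only [mem_insert, mem_singleton, not_or] at hl
  exact ⟨l, hl.1, hl.2.1, hl.2.2⟩

theorem OA.card_X3 (h : OA c) (hι : 4 ≤ Fintype.card ι) {i j k : ι} (h1 : i ≠ j) (h2 : i ≠ k)
    (h3 : j ≠ k) (a b d : A) : (X3 c i j k a b d).card = Fintype.card A := by
  obtain ⟨l, l1, l2, l3⟩ := exists_fourth hι i j k
  rw [← Finset.card_univ]
  refine Finset.card_bij (fun x _ => c l x) (fun _ _ => mem_univ _) ?_ ?_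
  · intro x hx y hy hxy
    rw [mem_X3] at hx hy
    exact h.eq h1 h2 l1.symm h3 l2.symm l3.symm (hx.1.trans hy.1.symm) (hx.2.1.trans hy.2.1.symm)
      (hx.2.2.trans hy.2.2.symm) hxy
  · intro e _
    obtain ⟨x, hx, -⟩ := h i j k l h1 h2 l1.symm h3 l2.symm l3.symm a b d e
    exact ⟨x, mem_X3.2 ⟨hx.1, hx.2.1, hx.2.2.1⟩, hx.2.2.2⟩

/-- **Tangents.** -/
theorem OA.tan (h : OA c) (hι : Fintype.card ι = Fintype.card A + 2) (hn : 2 ≤ Fintype.card A)
    {p i l : ι} (h1 : p ≠ i) (h2 : p ≠ l) (h3 : i ≠ l) (y : W) {d : A} (hd : d ≠ c l y) :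
    ∃! x, ag c x y = {p, i} ∧ c l x = d := by
  -- for every further column the word that agrees with `y` there
  set R : Finset ι := (({p, i, l} : Finset ι))ᶜ with hR
  have hRc : R.card = Fintype.card A - 1 := by
    rw [hR, Finset.card_compl, hι, Finset.card_eq_three.2 ⟨p, i, l, h1, h2, h3, rfl⟩]
    omega
  have hRm : ∀ r ∈ R, r ≠ p ∧ r ≠ i ∧ r ≠ l := by
    intro r hr
    rw [hR, mem_compl] at hr
    simp only [mem_insert, mem_singleton, not_or] at hr
    exact ⟨hr.1, hr.2.1, hr.2.2⟩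
  have hex : ∀ r ∈ R, ∃ x, c p x = c p y ∧ c i x = c i y ∧ c l x = d ∧ c r x = c r y := by
    intro r hr
    obtain ⟨r1, r2, r3⟩ := hRm r hr
    exact (h p i l r h1 h2 r1.symm h3 r2.symm r3.symm _ _ _ _).exists
  have hne : Nonempty W := ⟨y⟩
  choose! g hg1 hg2 hg3 hg4 using hex
  have hginj : ∀ r ∈ R, ∀ s ∈ R, g r = g s → r = s := by
    intro r hr s hs hrs
    by_contra hne'
    obtain ⟨r1, r2, r3⟩ := hRm r hr
    obtain ⟨s1, s2, s3⟩ := hRm s hs
    apply hd
    rw [← hg3 r hr]
    congr 1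
    refine h.eq h1 r1.symm s1.symm r2.symm s2.symm hne' (hg1 r hr) (hg2 r hr) (hg4 r hr) ?_
    rw [hrs]
    exact hg4 s hs
  have himg : R.image g ⊆ X3 c p i l (c p y) (c i y) d := by
    intro x hx
    obtain ⟨r, hr, rfl⟩ := mem_image.1 hx
    exact mem_X3.2 ⟨hg1 r hr, hg2 r hr, hg3 r hr⟩
  have hic : (R.image g).card = Fintype.card A - 1 := by
    rw [Finset.card_image_of_injOn (fun r hr s hs => hginj r hr s hs), hRc]
  have hXc := h.card_X3 (by omega) h1 h2 h3 (c p y) (c i y) d
  have hdc : (X3 c p i l (c p y) (c i y) d \ R.image g).card = 1 := by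
    rw [Finset.card_sdiff_of_subset himg, hXc, hic]
    omega
  obtain ⟨x, hx⟩ := Finset.card_eq_one.1 hdc
  have key : ∀ z, (ag c z y = {p, i} ∧ c l z = d) ↔
      z ∈ X3 c p i l (c p y) (c i y) d \ R.image g := by
    intro z
    rw [mem_sdiff, mem_X3]
    constructor
    · rintro ⟨e1, e2⟩
      have hp : p ∈ ag c z y := by rw [e1]; simp
      have hi : i ∈ ag c z y := by rw [e1]; simp
      refine ⟨⟨mem_ag.1 hp, mem_ag.1 hi, e2⟩, ?_⟩
      intro hz
      obtain ⟨r, hr, rfl⟩ := mem_image.1 hz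
      obtain ⟨r1, r2, r3⟩ := hRm r hr
      have : r ∈ ag c (g r) y := mem_ag.2 (hg4 r hr)
      rw [e1] at this
      simp [r1, r2] at this
    · rintro ⟨⟨e1, e2, e3⟩, e4⟩
      refine ⟨?_, e3⟩
      ext r
      rw [mem_ag, mem_insert, mem_singleton]
      constructor
      · intro hr
        by_contra hcon
        push Not at hcon
        apply e4
        have hrl : r ≠ l := by
          rintro rfl
          exact hd (e3.symm.trans hr)
        have hrR : r ∈ R := by
          rw [hR, mem_compl]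
          simp [hcon.1, hcon.2, hrl]
        refine mem_image.2 ⟨r, hrR, ?_⟩
        refine h.eq h1 h2 hcon.1.symm h3 hcon.2.symm hrl.symm ?_ ?_ ?_ ?_
        · rw [hg1 r hrR, e1]
        · rw [hg2 r hrR, e2]
        · rw [hg3 r hrR, e3]
        · rw [hg4 r hrR, hr]
      · rintro (rfl | rfl)
        · exact e1
        · exact e2
  refine ⟨x, (key x).2 (by rw [hx]; simp), fun z hz => ?_⟩
  have := (key z).1 hz
  rw [hx, mem_singleton] at this
  exact this

/-- **Parity.** -/
theorem OA.par (h : OA c) (hι : Fintype.card ι = Fintype.card A + 2) (hn : 2 ≤ Fintype.card A)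
    (hev : Even (Fintype.card A))
    {p i l : ι} (h1 : p ≠ i) (h2 : p ≠ l) (h3 : i ≠ l) (y : W) {b d : A} (hb : b ≠ c i y)
    (hd : d ≠ c l y) :
    ∃ x r, r ≠ p ∧ r ≠ i ∧ r ≠ l ∧ ag c x y = {p, r} ∧ c i x = b ∧ c l x = d := by
  set R : Finset ι := (({p, i, l} : Finset ι))ᶜ with hR
  have hRc : R.card = Fintype.card A - 1 := by
    rw [hR, Finset.card_compl, hι, Finset.card_eq_three.2 ⟨p, i, l, h1, h2, h3, rfl⟩]
    omega
  have hRm : ∀ r, r ∈ R ↔ r ≠ p ∧ r ≠ i ∧ r ≠ l := by
    intro r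
    rw [hR, mem_compl]
    simp
  have hsum : ∑ x ∈ X3 c p i l (c p y) b d, (R.filter fun r => c r x = c r y).card =
      Fintype.card A - 1 := by
    rw [← hRc]
    have h4 := Finset.sum_card_bipartiteAbove_eq_sum_card_bipartiteBelow
      (s := X3 c p i l (c p y) b d) (t := R) (fun x r => c r x = c r y)
    unfold Finset.bipartiteAbove Finset.bipartiteBelow at h4
    rw [h4, Finset.card_eq_sum_ones]
    refine Finset.sum_congr rfl fun r hr => ?_
    obtain ⟨r1, r2, r3⟩ := (hRm r).1 hr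
    obtain ⟨x, hx, hu⟩ := h p i l r h1 h2 r1.symm h3 r2.symm r3.symm (c p y) b d (c r y)
    rw [Finset.card_eq_one]
    refine ⟨x, ?_⟩
    ext z
    rw [mem_filter, mem_X3, mem_singleton]
    constructor
    · rintro ⟨⟨e1, e2, e3⟩, e4⟩
      exact hu z ⟨e1, e2, e3, e4⟩
    · rintro rfl
      exact ⟨⟨hx.1, hx.2.1, hx.2.2.1⟩, hx.2.2.2⟩
  have hodd : ∃ x ∈ X3 c p i l (c p y) b d, ¬ Even (R.filter fun r => c r x = c r y).card := by
    by_contra hcon
    push Not at hcon
    have h4 := Finset.even_sum _ hcon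
    rw [hsum] at h4
    obtain ⟨s, hs⟩ := hev
    obtain ⟨t, ht⟩ := h4
    omega
  obtain ⟨x, hx, hxo⟩ := hodd
  obtain ⟨e1, e2, e3⟩ := mem_X3.1 hx
  have hxy : x ≠ y := by
    rintro rfl
    exact hb e2.symm
  have hag : ag c x y = insert p (R.filter fun r => c r x = c r y) := by
    ext r
    rw [mem_ag, mem_insert, mem_filter, hRm]
    constructor
    · intro hr
      by_cases hrp : r = p
      · exact Or.inl hrp
      · right
        refine ⟨⟨hrp, ?_, ?_⟩, hr⟩
        · rintro rfl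
          exact hb (e2.symm.trans hr)
        · rintro rfl
          exact hd (e3.symm.trans hr)
    · rintro (rfl | hr)
      · exact e1
      · exact hr.2
  have hc := h.card_ag hxy
  rw [hag, Finset.card_insert_of_notMem (by rw [mem_filter, hRm]; tauto)] at hc
  have hc1 : (R.filter fun r => c r x = c r y).card = 1 := by
    rw [Nat.not_even_iff_odd] at hxo
    obtain ⟨s, hs⟩ := hxo
    omega
  obtain ⟨r, hr⟩ := Finset.card_eq_one.1 hc1
  have hrR : r ∈ R := by
    have : r ∈ R.filter fun r => c r x = c r y := by rw [hr]; simp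
    exact (mem_filter.1 this).1
  obtain ⟨r1, r2, r3⟩ := (hRm r).1 hrR
  exact ⟨x, r, r1, r2, r3, by rw [hag, hr], e2, e3⟩

/-- equal or touching -/
def T (c : ι → W → A) (x y : W) : Prop := x = y ∨ (ag c x y).card = 2

theorem T.symm {x y : W} (h : T c x y) : T c y x := by
  rcases h with rfl | h
  · exact Or.inl rfl
  · right
    rw [ag_comm, h]

theorem T.eq_pair {x y : W} (h : T c x y) (hne : x ≠ y) {p i : ι} (hpi : p ≠ i)
    (hp : c p x = c p y) (hi : c i x = c i y) : ag c x y = {p, i} := by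
  rcases h with h | h
  · exact absurd h hne
  · symm
    apply Finset.eq_of_subset_of_card_le
    · intro r hr
      rw [mem_insert, mem_singleton] at hr
      rcases hr with rfl | rfl
      · exact mem_ag.2 hp
      · exact mem_ag.2 hi
    · rw [h, Finset.card_pair hpi]

theorem T.exists_other {x y : W} (h : T c x y) (hne : x ≠ y) {p : ι}
    (hp : c p x = c p y) : ∃ i, i ≠ p ∧ ag c x y = {p, i} := by
  rcases h with h | h
  · exact absurd h hne
  · obtain ⟨a, b, hab, he⟩ := Finset.card_eq_two.1 h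
    have : p ∈ ag c x y := mem_ag.2 hp
    rw [he, mem_insert, mem_singleton] at this
    rcases this with rfl | rfl
    · exact ⟨b, hab.symm, he⟩
    · exact ⟨a, hab, by rw [he, Finset.pair_comm]⟩

theorem T.of_pair {x y : W} {p i : ι} (hpi : p ≠ i) (h : ag c x y = {p, i}) : T c x y :=
  Or.inr (by rw [h, Finset.card_pair hpi])

/-- parallel words -/
theorem OA.par_trans (h : OA c) (hι : Fintype.card ι = Fintype.card A + 2)
    (hn : 2 ≤ Fintype.card A) {p i : ι} (hpi : p ≠ i) {x y z : W} (h1 : c p x = c p y)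
    (h2 : c i x = c i y) (h3 : c p y = c p z) (h4 : c i y = c i z) (h5 : T c x y) (h6 : T c y z) :
    T c x z := by
  by_cases e1 : x = y
  · rw [e1]; exact h6
  by_cases e2 : y = z
  · rw [← e2]; exact h5
  by_cases e3 : x = z
  · exact Or.inl e3
  have h7 := h5.eq_pair e1 hpi h1 h2
  have h8 := h6.symm.eq_pair (Ne.symm e2) hpi h3.symm h4.symm
  refine T.of_pair hpi ?_
  ext l
  rw [mem_ag, mem_insert, mem_singleton]
  constructor
  · intro hl
    by_contra hcon
    push Not at hcon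
    apply e3
    have hd : c l x ≠ c l y := by
      intro hh
      have : l ∈ ag c x y := mem_ag.2 hh
      rw [h7] at this
      simp [hcon.1, hcon.2] at this
    exact (h.tan hι hn hpi hcon.1.symm hcon.2.symm y hd).unique ⟨h7, rfl⟩ ⟨h8, hl.symm⟩
  · rintro (rfl | rfl)
    · exact h1.trans h3
    · exact h2.trans h4

/-- **Touching is transitive among the words with a common value.** -/
theorem OA.trans (h : OA c) (hι : Fintype.card ι = Fintype.card A + 2)
    (hn : 2 ≤ Fintype.card A) (hev : Even (Fintype.card A)) {p : ι} {u v w : W}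
    (h1 : c p u = c p v) (h2 : c p v = c p w) (h3 : T c u v) (h4 : T c v w) : T c u w := by
  by_cases e1 : u = v
  · rw [e1]; exact h4
  by_cases e2 : v = w
  · rw [← e2]; exact h3
  obtain ⟨i, hip, hi⟩ := h3.exists_other e1 h1
  obtain ⟨j, hjp, hj⟩ := h4.exists_other e2 h2
  have hui : c i u = c i v := mem_ag.1 (by rw [hi]; simp)
  have hvj : c j v = c j w := mem_ag.1 (by rw [hj]; simp)
  by_cases hij : i = j
  · subst hij
    exact h.par_trans hι hn hip.symm h1 hui h2 hvj h3 h4
  have hvi : c i v ≠ c i w := by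
    intro hh
    have : i ∈ ag c v w := mem_ag.2 hh
    rw [hj] at this
    simp [hip, hij] at this
  -- the tangents
  have hex : ∀ l, l ≠ p → l ≠ i → ∃! x, ag c x w = {p, l} ∧ c i x = c i v := fun l hlp hli =>
    h.tan hι hn hlp.symm hip.symm hli w hvi
  set L : Finset ι := (({p, i} : Finset ι))ᶜ with hL
  have hLm : ∀ r, r ∈ L ↔ r ≠ p ∧ r ≠ i := by
    intro r
    rw [hL, mem_compl]
    simp
  have hLc : L.card = Fintype.card A := by
    rw [hL, Finset.card_compl, hι, Finset.card_pair hip.symm]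
    omega
  have hex' : ∀ l ∈ L, ∃ x, ag c x w = {p, l} ∧ c i x = c i v := fun l hl =>
    (hex l ((hLm l).1 hl).1 ((hLm l).1 hl).2).exists
  have hne : Nonempty W := ⟨u⟩
  choose! t ht1 ht2 using hex'
  have htu : ∀ l ∈ L, ∀ x, ag c x w = {p, l} → c i x = c i v → x = t l := fun l hl x hx1 hx2 =>
    (hex l ((hLm l).1 hl).1 ((hLm l).1 hl).2).unique ⟨hx1, hx2⟩ ⟨ht1 l hl, ht2 l hl⟩
  have htp : ∀ l ∈ L, c p (t l) = c p w := fun l hl => mem_ag.1 (by rw [ht1 l hl]; simp)
  have htl : ∀ l ∈ L, c l (t l) = c l w := fun l hl => mem_ag.1 (by rw [ht1 l hl]; simp)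
  -- at every column the tangents take all values
  have hsurj : ∀ l ∈ L, ∀ b : A, ∃ l' ∈ L, c l (t l') = b := by
    intro l hl b
    by_cases hb : b = c l w
    · exact ⟨l, hl, by rw [hb]; exact htl l hl⟩
    · obtain ⟨hlp, hli⟩ := (hLm l).1 hl
      obtain ⟨x, r, r1, r2, r3, hx1, hx2, hx3⟩ :=
        h.par hι hn hev hip.symm hlp.symm hli.symm w hvi hb
      have hrL : r ∈ L := (hLm r).2 ⟨r1, r2⟩
      exact ⟨r, hrL, by rw [← htu r hrL x hx1 hx2]; exact hx3⟩
  have hinj : ∀ l ∈ L, Set.InjOn (fun l' => c l (t l')) (L : Set ι) := by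
    intro l hl
    have hs : Set.SurjOn (fun l' => c l (t l')) (L : Set ι) ((univ : Finset A) : Set A) := by
      intro b _
      obtain ⟨l', h5, h6⟩ := hsurj l hl b
      exact ⟨l', h5, h6⟩
    exact Finset.injOn_of_surjOn_of_card_le (s := L) (t := (univ : Finset A))
      (fun l' => c l (t l')) (fun _ _ => Finset.mem_coe.2 (mem_univ _)) hs
      (by rw [hLc, Finset.card_univ])
  have hjL : j ∈ L := (hLm j).2 ⟨hjp, fun e => hij e.symm⟩
  have hvt : v = t j := htu j hjL v hj rfl
  obtain ⟨l', hl', hl'u⟩ := hsurj j hjL (c j u)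
  -- `t l'` is parallel to `v`
  have hTl : T c (t l') v := by
    by_cases e3 : l' = j
    · left
      rw [e3, ← hvt]
    · refine T.of_pair hip.symm ?_
      ext r
      rw [mem_ag, mem_insert, mem_singleton]
      constructor
      · intro hr
        by_contra hcon
        push Not at hcon
        have hrL : r ∈ L := (hLm r).2 hcon
        rw [hvt] at hr
        exact e3 (hinj r hrL (Finset.mem_coe.2 hl') (Finset.mem_coe.2 hjL) hr)
      · rintro (rfl | rfl)
        · rw [htp l' hl', h2]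
        · exact ht2 l' hl'
  have hTu : T c (t l') u :=
    h.par_trans hι hn hip.symm (by rw [htp l' hl', h2]) (ht2 l' hl') h1.symm hui.symm hTl h3.symm
  have heq : t l' = u := by
    by_contra hne'
    have := hTu.eq_pair hne' hip.symm (by rw [htp l' hl', ← h2, h1]) (by rw [ht2 l' hl', hui])
    have hjm : j ∈ ag c (t l') u := mem_ag.2 hl'u
    rw [this] at hjm
    simp [hjp] at hjm
    exact hij hjm.symm
  rw [← heq]
  exact T.of_pair ((hLm l').1 hl').1.symm (ht1 l' hl')

end Run7.h412.KP
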