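import Pool.Agent.Run7.h412.KP.Ext

set_option autoImplicit false
set_option linter.unusedSectionVars false

/-!
# Arrays of strength four and index one with `n + 3` columns
-/

namespace Run7.h412.KP

open Finset

variable {ι W A : Type} [Fintype ι] [DecidableEq ι] [Fintype W] [DecidableEq W] [Fintype A]
  [DecidableEq A] {c : ι → W → A}

/-- two words never agree on exactly two columns -/
theorem OA.ne_two (h : OA c) (hι : Fintype.card ι = Fintype.card A + 3)
    (_hn : 2 ≤ Fintype.card A) {x y : W} (_hxy : x ≠ y) : (ag c x y).card ≠ 2 := by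
  intro h2
  obtain ⟨p, q, hpq, he⟩ := Finset.card_eq_two.1 h2
  obtain ⟨r, hrp, hrq, -⟩ := exists_fourth (ι := ι) (by omega) p q q
  have hmem : ∀ s, c s x = c s y ↔ s = p ∨ s = q := by
    intro s
    rw [← mem_ag, he, mem_insert, mem_singleton]
  set R : Finset ι := (({p, q, r} : Finset ι))ᶜ with hR
  have hRc : R.card = Fintype.card A := by
    rw [hR, Finset.card_compl, hι, Finset.card_eq_three.2 ⟨p, q, r, hpq, hrp.symm, hrq.symm, rfl⟩]
    omega
  have hRm : ∀ s ∈ R, s ≠ p ∧ s ≠ q ∧ s ≠ r := by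
    intro s hs
    rw [hR, mem_compl] at hs
    simp only [mem_insert, mem_singleton, not_or] at hs
    exact ⟨hs.1, hs.2.1, hs.2.2⟩
  have hex : ∀ s ∈ R, ∃ z, c p z = c p x ∧ c q z = c q x ∧ c r z = c r x ∧ c s z = c s y := by
    intro s hs
    obtain ⟨s1, s2, s3⟩ := hRm s hs
    exact (h p q r s hpq hrp.symm s1.symm hrq.symm s2.symm s3.symm _ _ _ _).exists
  have hne : Nonempty W := ⟨y⟩
  choose! g hg1 hg2 hg3 hg4 using hex
  have hginj : Set.InjOn g (R : Set ι) := by
    intro s hs t ht hst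
    by_contra hne'
    obtain ⟨s1, s2, s3⟩ := hRm s hs
    obtain ⟨t1, t2, t3⟩ := hRm t ht
    have h3 : g s = y := by
      refine h.eq hpq s1.symm t1.symm s2.symm t2.symm hne' ?_ ?_ (hg4 s hs) ?_
      · rw [hg1 s hs]
        exact (hmem p).2 (Or.inl rfl)
      · rw [hg2 s hs]
        exact (hmem q).2 (Or.inr rfl)
      · rw [hst]
        exact hg4 t ht
    have h4 : c r x = c r y := by rw [← hg3 s hs, h3]
    rcases (hmem r).1 h4 with h5 | h5
    · exact hrp h5
    · exact hrq h5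
  have hsurj : Set.SurjOn g (R : Set ι) (X3 c p q r (c p x) (c q x) (c r x) : Set W) := by
    refine Finset.surjOn_of_injOn_of_card_le g ?_ hginj ?_
    · intro s hs
      exact Finset.mem_coe.2 (mem_X3.2 ⟨hg1 s hs, hg2 s hs, hg3 s hs⟩)
    · rw [h.card_X3 (by omega) hpq hrp.symm hrq.symm, hRc]
  obtain ⟨s, hs, hsx⟩ := hsurj (Finset.mem_coe.2 (mem_X3.2 ⟨rfl, rfl, rfl⟩))
  obtain ⟨s1, s2, s3⟩ := hRm s hs
  have h4 : c s x = c s y := by rw [← hsx]; exact hg4 s hs
  rcases (hmem s).1 h4 with h5 | h5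
  · exact s1 h5
  · exact s2 h5

/-- the words with two prescribed values -/
theorem OA.card_X2 (h : OA c) (hι : 4 ≤ Fintype.card ι) {i j : ι} (h1 : i ≠ j) (a b : A) :
    (univ.filter fun x => c i x = a ∧ c j x = b).card = Fintype.card A ^ 2 := by
  obtain ⟨k, hk1, hk2, -⟩ := exists_fourth hι i j j
  rw [Finset.card_eq_sum_card_fiberwise (f := c k) (t := univ) (fun _ _ => mem_univ _)]
  have : ∀ d ∈ (univ : Finset A), ((univ.filter fun x => c i x = a ∧ c j x = b).filter
      fun x => c k x = d).card = Fintype.card A := by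
    intro d _
    rw [← h.card_X3 hι h1 hk1.symm hk2.symm a b d]
    congr 1
    ext x
    simp only [mem_filter, mem_univ, true_and, mem_X3]
    tauto
  rw [Finset.sum_congr rfl this, Finset.sum_const, Finset.card_univ, smul_eq_mul, sq]

theorem OA.card_X1 (h : OA c) (hι : 4 ≤ Fintype.card ι) (i : ι) (a : A) :
    (univ.filter fun x => c i x = a).card = Fintype.card A ^ 3 := by
  obtain ⟨k, hk1, -, -⟩ := exists_fourth hι i i i
  rw [Finset.card_eq_sum_card_fiberwise (f := c k) (t := univ) (fun _ _ => mem_univ _)]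
  have : ∀ d ∈ (univ : Finset A), ((univ.filter fun x => c i x = a).filter
      fun x => c k x = d).card = Fintype.card A ^ 2 := by
    intro d _
    rw [← h.card_X2 hι hk1.symm a d]
    congr 1
    ext x
    simp only [mem_filter, mem_univ, true_and]
  rw [Finset.sum_congr rfl this, Finset.sum_const, Finset.card_univ, smul_eq_mul, pow_succ _ 2,
    mul_comm]

theorem OA.card_X4 (h : OA c) {i j k l : ι} (h1 : i ≠ j) (h2 : i ≠ k) (h3 : i ≠ l)
    (h4 : j ≠ k) (h5 : j ≠ l) (h6 : k ≠ l) (a b d e : A) :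
    (univ.filter fun x => c i x = a ∧ c j x = b ∧ c k x = d ∧ c l x = e).card = 1 := by
  obtain ⟨x, hx, hu⟩ := h i j k l h1 h2 h3 h4 h5 h6 a b d e
  rw [Finset.card_eq_one]
  refine ⟨x, ?_⟩
  ext z
  rw [mem_filter, mem_singleton]
  constructor
  · intro hz
    exact hu z hz.2
  · rintro rfl
    exact ⟨mem_univ _, hx⟩

/-- double counting -/
theorem dcount {E : Type} (Q : Finset E) (V : Finset W) (r : W → E → Prop)
    [∀ x e, Decidable (r x e)] (k : ℕ) (hk : ∀ e ∈ Q, (V.filter fun x => r x e).card = k) :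
    ∑ x ∈ V, (Q.filter fun e => r x e).card = Q.card * k := by
  have h4 := Finset.sum_card_bipartiteAbove_eq_sum_card_bipartiteBelow (s := V) (t := Q) r
  unfold Finset.bipartiteAbove Finset.bipartiteBelow at h4
  rw [h4, Finset.sum_congr rfl hk, Finset.sum_const, smul_eq_mul]

theorem card_offDiag' {α : Type} [DecidableEq α] (s : Finset α) :
    s.offDiag.card = s.card * (s.card - 1) := by
  rw [Finset.offDiag_card, Nat.mul_sub_one]

/-- the fourth moment -/
theorem OA.sum_four (h : OA c) (w w' : W) (J : Finset ι) (hJ : ∀ i ∈ J, c i w ≠ c i w') :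
    ∑ x : W, (J ∩ ag c x w).offDiag.card * (J ∩ ag c x w').offDiag.card =
      J.card * (J.card - 1) * ((J.card - 2) * (J.card - 3)) := by
  classical
  set Q : Finset (Σ _ : ι × ι, ι × ι) := J.offDiag.sigma fun q => (J \ {q.1, q.2}).offDiag with hQ
  have hQc : Q.card = J.card * (J.card - 1) * ((J.card - 2) * (J.card - 3)) := by
    rw [hQ, Finset.card_sigma]
    have : ∀ q ∈ J.offDiag, (J \ {q.1, q.2}).offDiag.card = (J.card - 2) * (J.card - 3) := by
      intro q hq
      rw [mem_offDiag] at hq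
      have h1 : (J \ {q.1, q.2}).card = J.card - 2 := by
        rw [Finset.card_sdiff_of_subset, Finset.card_pair hq.2.2]
        intro r hr
        rw [mem_insert, mem_singleton] at hr
        rcases hr with rfl | rfl
        · exact hq.1
        · exact hq.2.1
      rw [card_offDiag', h1, Nat.sub_sub]
    rw [Finset.sum_congr rfl this, Finset.sum_const, smul_eq_mul, card_offDiag']
  have hQm : ∀ e : (Σ _ : ι × ι, ι × ι), e ∈ Q ↔ (e.1.1 ∈ J ∧ e.1.2 ∈ J ∧ e.1.1 ≠ e.1.2) ∧
      (e.2.1 ∈ J ∧ e.2.1 ≠ e.1.1 ∧ e.2.1 ≠ e.1.2) ∧ (e.2.2 ∈ J ∧ e.2.2 ≠ e.1.1 ∧ e.2.2 ≠ e.1.2) ∧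
      e.2.1 ≠ e.2.2 := by
    intro e
    rw [hQ, mem_sigma, mem_offDiag, mem_offDiag, mem_sdiff, mem_sdiff]
    simp only [mem_insert, mem_singleton, not_or]
  have hd := dcount Q (univ : Finset W) (fun x e => c e.1.1 x = c e.1.1 w ∧ c e.1.2 x = c e.1.2 w ∧
    c e.2.1 x = c e.2.1 w' ∧ c e.2.2 x = c e.2.2 w') 1 (by
      intro e he
      obtain ⟨⟨-, -, h1⟩, ⟨-, h2, h3⟩, ⟨-, h4, h5⟩, h6⟩ := (hQm e).1 he
      exact h.card_X4 h1 h2.symm h4.symm h3.symm h5.symm h6 _ _ _ _)
  rw [mul_one, hQc] at hd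
  rw [← hd]
  refine Finset.sum_congr rfl fun x _ => ?_
  rw [← Finset.card_product]
  refine Finset.card_bij (fun z _ => ⟨z.1, z.2⟩) ?_ ?_ ?_
  · rintro ⟨z1, z2⟩ hz
    rw [mem_product, mem_offDiag, mem_offDiag] at hz
    simp only [mem_inter, mem_ag] at hz
    obtain ⟨⟨⟨a1, a2⟩, ⟨a3, a4⟩, a5⟩, ⟨a6, a7⟩, ⟨a8, a9⟩, a10⟩ := hz
    rw [mem_filter, hQm]
    refine ⟨⟨⟨a1, a3, a5⟩, ⟨a6, ?_, ?_⟩, ⟨a8, ?_, ?_⟩, a10⟩, a2, a4, a7, a9⟩
    · intro e
      exact hJ _ a6 (by rw [← a7]; show c z2.1 w = c z2.1 x; rw [e]; exact a2.symm)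
    · intro e
      exact hJ _ a6 (by rw [← a7]; show c z2.1 w = c z2.1 x; rw [e]; exact a4.symm)
    · intro e
      exact hJ _ a8 (by rw [← a9]; show c z2.2 w = c z2.2 x; rw [e]; exact a2.symm)
    · intro e
      exact hJ _ a8 (by rw [← a9]; show c z2.2 w = c z2.2 x; rw [e]; exact a4.symm)
  · rintro ⟨z1, z2⟩ _ ⟨y1, y2⟩ _ hzy
    simp only [Sigma.mk.injEq, heq_eq_eq] at hzy
    rw [hzy.1, hzy.2]
  · rintro ⟨z1, z2⟩ hz
    rw [mem_filter, hQm] at hz
    obtain ⟨⟨⟨a1, a2, a3⟩, ⟨a4, a5, a6⟩, ⟨a7, a8, a9⟩, a10⟩, b1, b2, b3, b4⟩ := hz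
    refine ⟨(z1, z2), ?_, rfl⟩
    rw [mem_product, mem_offDiag, mem_offDiag]
    simp only [mem_inter, mem_ag]
    exact ⟨⟨⟨a1, b1⟩, ⟨a2, b2⟩, a3⟩, ⟨a4, b3⟩, ⟨a7, b4⟩, a10⟩

/-- words that agree nowhere -/
theorem OA.mod_zero (h : OA c) (hι : Fintype.card ι = Fintype.card A + 3)
    (hn : 2 ≤ Fintype.card A) {w w' : W} (hw : ag c w w' = ∅) :
    36 ∣ (Fintype.card A + 3) * (Fintype.card A + 2) *
      ((Fintype.card A + 1) * Fintype.card A) := by
  have hne : ∀ i, c i w ≠ c i w' := by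
    intro i hi
    have : i ∈ ag c w w' := mem_ag.2 hi
    rw [hw] at this
    exact absurd this (Finset.notMem_empty i)
  have h1 := h.sum_four w w' univ (fun i _ => hne i)
  rw [Finset.card_univ, hι] at h1
  have e1 : Fintype.card A + 3 - 1 = Fintype.card A + 2 := by omega
  have e2 : Fintype.card A + 3 - 2 = Fintype.card A + 1 := by omega
  have e3 : Fintype.card A + 3 - 3 = Fintype.card A := by omega
  rw [e1, e2, e3] at h1
  rw [← h1]
  refine Finset.dvd_sum fun x _ => ?_
  rw [univ_inter, univ_inter, card_offDiag', card_offDiag']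
  by_cases hx : x = w
  · rw [hx, hw]
    simp
  by_cases hx' : x = w'
  · rw [hx', ag_comm, hw]
    simp
  have a1 := h.card_ag hx
  have a2 := h.ne_two hι hn hx
  have a3 := h.card_ag hx'
  have a4 := h.ne_two hι hn hx'
  have a5 : (ag c x w).card = 0 ∨ (ag c x w).card = 1 ∨ (ag c x w).card = 3 := by omega
  have a6 : (ag c x w').card = 0 ∨ (ag c x w').card = 1 ∨ (ag c x w').card = 3 := by omega
  rcases a5 with e | e | e <;> rcases a6 with e' | e' | e' <;> rw [e, e'] <;> norm_num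

/-- there are two words that agree nowhere -/
theorem OA.exists_disjoint (h : OA c) (hι : Fintype.card ι = Fintype.card A + 3)
    (hn : 3 ≤ Fintype.card A) (w : W) : ∃ w', ag c w w' = ∅ := by
  classical
  by_contra hcon
  push Not at hcon
  obtain ⟨p⟩ : Nonempty ι := Fintype.card_pos_iff.1 (by omega)
  have : Nontrivial A := Fintype.one_lt_card_iff_nontrivial.1 (by omega)
  obtain ⟨a, ha⟩ := exists_ne (c p w)
  set V : Finset W := univ.filter fun x => c p x = a with hV
  set P : Finset ι := univ.erase p with hP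
  have hPc : P.card = Fintype.card A + 2 := by
    rw [hP, Finset.card_erase_of_mem (mem_univ _), Finset.card_univ, hι]
    omega
  have hVc : V.card = Fintype.card A ^ 3 := h.card_X1 (by omega) p a
  have hag : ∀ x ∈ V, P.filter (fun i => c i x = c i w) = ag c x w := by
    intro x hx
    rw [hV, mem_filter] at hx
    ext i
    rw [mem_filter, mem_ag, hP, mem_erase]
    constructor
    · exact fun h => h.2
    · intro hi
      refine ⟨⟨?_, mem_univ _⟩, hi⟩
      rintro rfl
      exact ha (hx.2.symm.trans hi)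
  have s1 : ∑ x ∈ V, (ag c x w).card = (Fintype.card A + 2) * Fintype.card A ^ 2 := by
    rw [← hPc, ← dcount P V (fun x i => c i x = c i w) (Fintype.card A ^ 2)]
    · exact Finset.sum_congr rfl fun x hx => by rw [hag x hx]
    · intro i hi
      rw [hP, mem_erase] at hi
      rw [← h.card_X2 (by omega) hi.1.symm a (c i w), hV]
      congr 1
      ext x
      simp only [mem_filter, mem_univ, true_and]
  have s2 : ∑ x ∈ V, (ag c x w).offDiag.card =
      (Fintype.card A + 2) * (Fintype.card A + 1) * Fintype.card A := by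
    have e1 : P.offDiag.card = (Fintype.card A + 2) * (Fintype.card A + 1) := by
      rw [card_offDiag', hPc]
      rfl
    rw [← e1, ← dcount P.offDiag V (fun x q => c q.1 x = c q.1 w ∧ c q.2 x = c q.2 w)
      (Fintype.card A)]
    · refine Finset.sum_congr rfl fun x hx => ?_
      congr 1
      ext q
      rw [← hag x hx, mem_offDiag, mem_filter, mem_filter, mem_filter, mem_offDiag]
      tauto
    · intro q hq
      rw [mem_offDiag, hP, mem_erase, mem_erase] at hq
      rw [← h.card_X3 (by omega) hq.1.1.symm hq.2.1.1.symm hq.2.2 a (c q.1 w) (c q.2 w), hV]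
      congr 1
      ext x
      simp only [mem_filter, mem_univ, true_and, mem_X3]
  have s3 : ∀ x ∈ V, (ag c x w).offDiag.card + 3 = 3 * (ag c x w).card := by
    intro x hx
    have hxw : x ≠ w := by
      rintro rfl
      rw [hV, mem_filter] at hx
      exact ha hx.2.symm
    have a1 := h.card_ag hxw
    have a2 := h.ne_two hι (by omega) hxw
    have a3 : 0 < (ag c x w).card := by
      rw [Finset.card_pos, ag_comm]
      exact hcon x
    have a5 : (ag c x w).card = 1 ∨ (ag c x w).card = 3 := by omega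
    rw [card_offDiag']
    rcases a5 with e | e <;> rw [e]
  have s4 := Finset.sum_congr rfl s3
  rw [Finset.sum_add_distrib, ← Finset.mul_sum, s1, s2, Finset.sum_const, smul_eq_mul, hVc] at s4
  obtain ⟨m, hm⟩ : ∃ m, Fintype.card A = m + 3 := ⟨Fintype.card A - 3, by omega⟩
  rw [hm] at s4
  nlinarith [s4, sq_nonneg m]

end Run7.h412.KP
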