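import Pool.Agent.Run7.h412.KP.Base

set_option autoImplicit false
set_option linter.unusedSectionVars false

/-!
# The extension by one column
-/

namespace Run7.h412.KP

open Finset

variable {ι W A : Type} [Fintype ι] [DecidableEq ι] [Fintype W] [DecidableEq W] [Fintype A]
  [DecidableEq A] {c : ι → W → A}

theorem T.refl (x : W) : T c x x := Or.inl rfl

/-- a word through `(p, a)` that touches `w` with a prescribed column of agreement -/
theorem OA.exists_touch (h : OA c) (hι : Fintype.card ι = Fintype.card A + 2)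
    (hn : 2 ≤ Fintype.card A) {p i : ι} (hpi : i ≠ p) (a : A) (w : W) :
    ∃ y, c p y = a ∧ c i y = c i w ∧ T c y w := by
  by_cases hw : c p w = a
  · exact ⟨w, hw, rfl, T.refl w⟩
  · obtain ⟨j, hj1, hj2, -⟩ := exists_fourth (ι := ι) (by omega) i p p
    obtain ⟨y, ⟨hy1, hy2⟩, -⟩ := h.tan hι hn hj1.symm hpi hj2 w (d := a) (Ne.symm hw)
    exact ⟨y, hy2, mem_ag.1 (by rw [hy1]; simp), T.of_pair hj1.symm hy1⟩

/-- two words through `(p, a)` that touch the same word touch each other -/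
theorem OA.touch_touch (h : OA c) (hι : Fintype.card ι = Fintype.card A + 2)
    (hn : 2 ≤ Fintype.card A) (hev : Even (Fintype.card A)) {p : ι} {u u' w : W}
    (h0 : c p u = c p u') (h1 : T c u w) (h2 : T c u' w) : T c u u' := by
  by_cases hw : c p u = c p w
  · exact h.trans hι hn hev hw (hw.symm.trans h0) h1 h2.symm
  have hne : u ≠ w := by
    rintro rfl
    exact hw rfl
  have hne' : u' ≠ w := by
    rintro rfl
    exact hw h0
  have hc1 : (ag c u w).card = 2 := by
    rcases h1 with h1 | h1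
    · exact absurd h1 hne
    · exact h1
  have hc2 : (ag c u' w).card = 2 := by
    rcases h2 with h2 | h2
    · exact absurd h2 hne'
    · exact h2
  obtain ⟨i, hi⟩ : (ag c u w).Nonempty := Finset.card_pos.1 (by omega)
  obtain ⟨i', hi'⟩ : (ag c u' w).Nonempty := Finset.card_pos.1 (by omega)
  rw [mem_ag] at hi hi'
  have hip : i ≠ p := by
    rintro rfl
    exact hw hi
  have hip' : i' ≠ p := by
    rintro rfl
    exact hw (h0.trans hi')
  by_cases hii : i = i'
  · subst hii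
    exact h.trans hι hn hev hi hi'.symm h1 h2.symm
  · obtain ⟨y, ⟨hy1, hy2⟩, -⟩ := h.tan hι hn hii hip hip' w (d := c p u) hw
    have hyT : T c y w := T.of_pair hii hy1
    have hyi : c i y = c i w := mem_ag.1 (by rw [hy1]; simp)
    have hyi' : c i' y = c i' w := mem_ag.1 (by rw [hy1]; simp)
    have h3 : T c u y := h.trans hι hn hev hi hyi.symm h1 hyT.symm
    have h4 : T c y u' := h.trans hι hn hev hyi' hi'.symm hyT h2.symm
    exact h.trans hι hn hev hy2.symm (hy2.trans h0) h3 h4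

/-- **The extension.** -/
theorem OA.extend (h : OA c) (hι : Fintype.card ι = Fintype.card A + 2)
    (hn : 2 ≤ Fintype.card A) (hev : Even (Fintype.card A)) :
    ∃ f : W → A, ∀ w w' : W, w ≠ w' → 3 ≤ (ag c w w').card → f w ≠ f w' := by
  classical
  obtain ⟨p, i0, j0, k0, hne⟩ : ∃ p i0 j0 k0 : ι, p ≠ i0 ∧ p ≠ j0 ∧ p ≠ k0 ∧ i0 ≠ j0 ∧ i0 ≠ k0 ∧
      j0 ≠ k0 := by
    obtain ⟨S, -, hS⟩ := Finset.exists_subset_card_eq
      (show 4 ≤ (Finset.univ : Finset ι).card by rw [Finset.card_univ]; omega)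
    obtain ⟨i, j, k, l, h1, h2, h3, h4, h5, h6, -⟩ := Finset.card_eq_four.1 hS
    exact ⟨i, j, k, l, h1, h2, h3, h4, h5, h6⟩
  obtain ⟨n1, n2, n3, n4, n5, n6⟩ := hne
  obtain ⟨a0⟩ : Nonempty A := Fintype.card_pos_iff.1 (by omega)
  have hX : ∀ g : A, ∃ x, c p x = a0 ∧ c i0 x = a0 ∧ c j0 x = a0 ∧ c k0 x = g := fun g =>
    (h p i0 j0 k0 n1 n2 n3 n4 n5 n6 a0 a0 a0 g).exists
  choose X hX1 hX2 hX3 hX4 using hX
  have hXu : ∀ x, c p x = a0 → c i0 x = a0 → c j0 x = a0 → x = X (c k0 x) := fun x h1 h2 h3 =>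
    h.eq n1 n2 n3 n4 n5 n6 (h1.trans (hX1 _).symm) (h2.trans (hX2 _).symm)
      (h3.trans (hX3 _).symm) (hX4 _).symm
  -- every word through `(p, a0)` touches a word of the pencil
  have hex : ∀ u, c p u = a0 → ∃ g, T c u (X g) := by
    intro u hu
    have hfin : ∀ x, c p x = a0 → c i0 x = a0 → c j0 x = a0 → T c x u → ∃ g, T c u (X g) :=
      fun x h1 h2 h3 h4 => ⟨c k0 x, by rw [← hXu x h1 h2 h3]; exact h4.symm⟩
    by_cases hi : c i0 u = a0
    · by_cases hj : c j0 u = a0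
      · exact hfin u hu hi hj (T.refl u)
      · obtain ⟨x, ⟨hx1, hx2⟩, -⟩ := h.tan hι hn n1 n2 n4 u (d := a0) (Ne.symm hj)
        have e1 : c p x = c p u := mem_ag.1 (by rw [hx1]; simp)
        have e2 : c i0 x = c i0 u := mem_ag.1 (by rw [hx1]; simp)
        exact hfin x (e1.trans hu) (e2.trans hi) hx2 (T.of_pair n1 hx1)
    · by_cases hj : c j0 u = a0
      · obtain ⟨x, ⟨hx1, hx2⟩, -⟩ := h.tan hι hn n2 n1 n4.symm u (d := a0) (Ne.symm hi)
        have e1 : c p x = c p u := mem_ag.1 (by rw [hx1]; simp)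
        have e2 : c j0 x = c j0 u := mem_ag.1 (by rw [hx1]; simp)
        exact hfin x (e1.trans hu) hx2 (e2.trans hj) (T.of_pair n2 hx1)
      · obtain ⟨x, r, r1, r2, r3, hx1, hx2, hx3⟩ :=
          h.par hι hn hev n1 n2 n4 u (b := a0) (d := a0) (Ne.symm hi) (Ne.symm hj)
        have e1 : c p x = c p u := mem_ag.1 (by rw [hx1]; simp)
        exact hfin x (e1.trans hu) hx2 hx3 (T.of_pair r1.symm hx1)
  have hR : ∀ w, ∃ g, ∃ u, c p u = a0 ∧ T c u w ∧ T c u (X g) := by
    intro w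
    obtain ⟨y, hy1, -, hy3⟩ := h.exists_touch hι hn n1.symm a0 w
    obtain ⟨g, hg⟩ := hex y hy1
    exact ⟨g, y, hy1, hy3, hg⟩
  choose f u hu1 hu2 hu3 using hR
  refine ⟨f, fun w w' hww hc hf => ?_⟩
  obtain ⟨i, hi, hip⟩ : ∃ i ∈ ag c w w', i ≠ p := by
    by_contra hcon
    push Not at hcon
    have : ag c w w' ⊆ {p} := fun i hi => mem_singleton.2 (hcon i hi)
    have := Finset.card_le_card this
    rw [Finset.card_singleton] at this
    omega
  rw [mem_ag] at hi
  -- `u w` and `u w'` touch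
  have h1 : T c (u w) (u w') := by
    have e1 := hu3 w'
    rw [← hf] at e1
    exact h.touch_touch hι hn hev ((hu1 w).trans (hu1 w').symm) (hu3 w) e1
  obtain ⟨y, hy1, hy2, hy3⟩ := h.exists_touch hι hn hip a0 w
  obtain ⟨y', hy1', hy2', hy3'⟩ := h.exists_touch hι hn hip a0 w'
  have h2 : T c y (u w) := h.touch_touch hι hn hev (hy1.trans (hu1 w).symm) hy3 (hu2 w)
  have h3 : T c (u w') y' :=
    h.touch_touch hι hn hev ((hu1 w').trans hy1'.symm) (hu2 w') hy3'
  have h4 : T c y (u w') :=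
    h.trans hι hn hev (hy1.trans (hu1 w).symm) ((hu1 w).trans (hu1 w').symm) h2 h1
  have h5 : T c y y' :=
    h.trans hι hn hev (hy1.trans (hu1 w').symm) ((hu1 w').trans hy1'.symm) h4 h3
  have h6 : T c w y' := h.trans hι hn hev hy2.symm (hy2.trans (hi.trans hy2'.symm)) hy3.symm h5
  have h7 : T c w w' := h.trans hι hn hev (hi.trans hy2'.symm) hy2' h6 hy3'
  rcases h7 with h7 | h7
  · exact hww h7
  · omega

/-- the array with the additional column -/
def ext (c : ι → W → A) (f : W → A) : Option ι → W → A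
  | none => f
  | some i => c i

theorem OA.ext (h : OA c) (hι : 4 ≤ Fintype.card ι) {f : W → A}
    (hf : ∀ w w' : W, w ≠ w' → 3 ≤ (ag c w w').card → f w ≠ f w') : OA (ext c f) := by
  classical
  -- three columns and the new one
  have key : ∀ i j k : ι, i ≠ j → i ≠ k → j ≠ k → ∀ a b d e : A,
      ∃! x, c i x = a ∧ c j x = b ∧ c k x = d ∧ f x = e := by
    intro i j k h1 h2 h3 a b d e
    have hinj : ∀ x ∈ X3 c i j k a b d, ∀ y ∈ X3 c i j k a b d, f x = f y → x = y := by
      intro x hx y hy hxy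
      rw [mem_X3] at hx hy
      by_contra hne
      refine hf x y hne ?_ hxy
      have hsub : ({i, j, k} : Finset ι) ⊆ ag c x y := by
        intro r hr
        simp only [mem_insert, mem_singleton] at hr
        rcases hr with rfl | rfl | rfl
        · exact mem_ag.2 (hx.1.trans hy.1.symm)
        · exact mem_ag.2 (hx.2.1.trans hy.2.1.symm)
        · exact mem_ag.2 (hx.2.2.trans hy.2.2.symm)
      have := Finset.card_le_card hsub
      rwa [Finset.card_eq_three.2 ⟨i, j, k, h1, h2, h3, rfl⟩] at this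
    have hsurj : Set.SurjOn f (X3 c i j k a b d : Set W) ((univ : Finset A) : Set A) := by
      refine Finset.surjOn_of_injOn_of_card_le f (fun _ _ => Finset.mem_coe.2 (mem_univ _))
        (fun x hx y hy hxy => hinj x hx y hy hxy) ?_
      rw [h.card_X3 hι h1 h2 h3, Finset.card_univ]
    obtain ⟨x, hx, hxe⟩ := hsurj (Finset.mem_coe.2 (mem_univ e))
    have hx' := mem_X3.1 (Finset.mem_coe.1 hx)
    refine ⟨x, ⟨hx'.1, hx'.2.1, hx'.2.2, hxe⟩, ?_⟩
    rintro y ⟨y1, y2, y3, y4⟩
    exact hinj y (mem_X3.2 ⟨y1, y2, y3⟩) x (Finset.mem_coe.1 hx) (y4.trans hxe.symm)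
  rintro (_ | i) (_ | j) (_ | k) (_ | l) h1 h2 h3 h4 h5 h6 a b d e <;>
    first
    | exact absurd rfl h1
    | exact absurd rfl h2
    | exact absurd rfl h3
    | exact absurd rfl h4
    | exact absurd rfl h5
    | exact absurd rfl h6
    | skip
  · obtain ⟨x, hx, hu⟩ := key j k l (fun e => h4 (congrArg some e)) (fun e => h5 (congrArg some e))
      (fun e => h6 (congrArg some e)) b d e a
    exact ⟨x, ⟨hx.2.2.2, hx.1, hx.2.1, hx.2.2.1⟩, fun y hy => hu y ⟨hy.2.1, hy.2.2.1, hy.2.2.2, hy.1⟩⟩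
  · obtain ⟨x, hx, hu⟩ := key i k l (fun e => h2 (congrArg some e)) (fun e => h3 (congrArg some e))
      (fun e => h6 (congrArg some e)) a d e b
    exact ⟨x, ⟨hx.1, hx.2.2.2, hx.2.1, hx.2.2.1⟩, fun y hy => hu y ⟨hy.1, hy.2.2.1, hy.2.2.2, hy.2.1⟩⟩
  · obtain ⟨x, hx, hu⟩ := key i j l (fun e => h1 (congrArg some e)) (fun e => h3 (congrArg some e))
      (fun e => h5 (congrArg some e)) a b e d
    exact ⟨x, ⟨hx.1, hx.2.1, hx.2.2.2, hx.2.2.1⟩, fun y hy => hu y ⟨hy.1, hy.2.1, hy.2.2.2, hy.2.2.1⟩⟩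
  · obtain ⟨x, hx, hu⟩ := key i j k (fun e => h1 (congrArg some e)) (fun e => h2 (congrArg some e))
      (fun e => h4 (congrArg some e)) a b d e
    exact ⟨x, hx, fun y hy => hu y hy⟩
  · exact h i j k l (fun e => h1 (congrArg some e)) (fun e => h2 (congrArg some e))
      (fun e => h3 (congrArg some e)) (fun e => h4 (congrArg some e))
      (fun e => h5 (congrArg some e)) (fun e => h6 (congrArg some e)) a b d e

end Run7.h412.KP
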