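import Pool.Agent.Run7.h412.KP.One
import Pool.Agent.H430R2.PermCubes.Upper

set_option autoImplicit false

/-!
# Upper bounds for variational sets of even order
-/

namespace Run7.h412.KP

open Finset Pool.Agent.H430R2.PermCubes

variable {m n k : ℕ} {C : Fin k → (Fin m → Fin n) → Fin n}

/-- the words of a variational set with `m - 4` prescribed values form an array of strength four -/
theorem oa_of_array (h : IsArray m n k C) (U V : Finset (Fin k)) (hU : U.card + 4 = m)
    (hUV : Disjoint U V) (a : Fin n) :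
    OA (fun (i : {i // i ∈ V}) (x : {x : Fin m → Fin n // ∀ i ∈ U, C i x = a}) => C i.1 x.1) := by
  classical
  rintro ⟨i, hi⟩ ⟨j, hj⟩ ⟨r, hr⟩ ⟨l, hl⟩ h1 h2 h3 h4 h5 h6 b1 b2 b3 b4
  have hVU : ∀ c ∈ V, c ∉ U := fun c hc hcU => Finset.disjoint_left.1 hUV hcU hc
  rw [Ne, Subtype.mk.injEq] at h1 h2 h3 h4 h5 h6
  have hS : (insert i (insert j (insert r (insert l U)))).card = m := by
    rw [Finset.card_insert_of_notMem, Finset.card_insert_of_notMem,
      Finset.card_insert_of_notMem, Finset.card_insert_of_notMem (hVU l hl)]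
    · exact hU
    · simp [h6, hVU r hr]
    · simp [h4, h5, hVU j hj]
    · simp [h1, h2, h3, hVU i hi]
  obtain ⟨x, hx⟩ := h.exists_point _ hS (fun s => if s = i then b1 else if s = j then b2 else
    if s = r then b3 else if s = l then b4 else a)
  have hxU : ∀ s ∈ U, C s x = a := by
    intro s hs
    have e := hx s (by simp [hs])
    have n1 : s ≠ i := fun e => hVU i hi (e ▸ hs)
    have n2 : s ≠ j := fun e => hVU j hj (e ▸ hs)
    have n3 : s ≠ r := fun e => hVU r hr (e ▸ hs)
    have n4 : s ≠ l := fun e => hVU l hl (e ▸ hs)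
    rw [if_neg n1, if_neg n2, if_neg n3, if_neg n4] at e
    exact e
  have e1 : C i x = b1 := by
    have e := hx i (by simp)
    rwa [if_pos rfl] at e
  have e2 : C j x = b2 := by
    have e := hx j (by simp)
    rwa [if_neg (Ne.symm h1), if_pos rfl] at e
  have e3 : C r x = b3 := by
    have e := hx r (by simp)
    rwa [if_neg (Ne.symm h2), if_neg (Ne.symm h4), if_pos rfl] at e
  have e4 : C l x = b4 := by
    have e := hx l (by simp)
    rwa [if_neg (Ne.symm h3), if_neg (Ne.symm h5), if_neg (Ne.symm h6), if_pos rfl] at e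
  refine ⟨⟨x, hxU⟩, ⟨e1, e2, e3, e4⟩, ?_⟩
  rintro ⟨y, hyU⟩ ⟨y1, y2, y3, y4⟩
  apply Subtype.ext
  refine h.eq_of_agree _ hS.ge ?_
  intro s hs
  simp only [mem_insert] at hs
  rcases hs with rfl | rfl | rfl | rfl | hs
  · exact (show C _ y = b1 from y1).trans e1.symm
  · exact (show C _ y = b2 from y2).trans e2.symm
  · exact (show C _ y = b3 from y3).trans e3.symm
  · exact (show C _ y = b4 from y4).trans e4.symm
  · rw [hyU s hs, hxU s hs]

/-- **Upper bound** for even orders not divisible by `36` -/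
theorem upper (h : IsArray m n k C) (hm : 4 ≤ m) (hn : 4 ≤ n) (hev : n % 2 = 0)
    (h36 : ¬ 36 ∣ n) : k ≤ n + m - 3 := by
  classical
  by_contra hcon
  push Not at hcon
  obtain ⟨U, -, hU⟩ := Finset.exists_subset_card_eq
    (show m - 4 ≤ (Finset.univ : Finset (Fin k)).card by simp; omega)
  have hUc : (Uᶜ : Finset (Fin k)).card = k - (m - 4) := by
    rw [Finset.card_compl, Fintype.card_fin, hU]
  obtain ⟨V, hVU, hV⟩ := Finset.exists_subset_card_eq
    (show n + 2 ≤ (Uᶜ : Finset (Fin k)).card by rw [hUc]; omega)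
  have hdis : Disjoint U V := by
    rw [Finset.disjoint_left]
    intro x hx hx'
    have := hVU hx'
    rw [mem_compl] at this
    exact this hx
  have h1 := oa_of_array h U V (by omega) hdis ⟨0, by omega⟩
  refine h1.no_two_more' ?_ ?_ ?_ ?_
  · rw [Fintype.card_coe, hV, Fintype.card_fin]
  · rw [Fintype.card_fin]; exact hn
  · rw [Fintype.card_fin]; exact Nat.even_iff.2 hev
  · rw [Fintype.card_fin]
    exact h36

end Run7.h412.KP
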