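import Pool.Agent.Run7.h412.KP.Three

set_option autoImplicit false
set_option linter.unusedSectionVars false

/-!
# Words that agree on exactly one column
-/

namespace Run7.h412.KP

open Finset

variable {ι W A : Type} [Fintype ι] [DecidableEq ι] [Fintype W] [DecidableEq W] [Fintype A]
  [DecidableEq A] {c : ι → W → A}

theorem local_mod_one {a b j A' : ℕ} (h : (a = A' ∧ b = 0 ∧ j = 1) ∨ (a = 0 ∧ b = A' ∧ j = 1) ∨
    (j ≤ 1 ∧ (a + j = 0 ∨ a + j = 1 ∨ a + j = 3) ∧ (b + j = 0 ∨ b + j = 1 ∨ b + j = 3))) :
    a * (a - 1) * (b * (b - 1)) ≡ j * (a * b) [MOD 36] := by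
  rcases h with ⟨rfl, rfl, rfl⟩ | ⟨rfl, rfl, rfl⟩ | ⟨h0, h1, h2⟩
  · simp [Nat.ModEq]
  · simp [Nat.ModEq]
  · have ha : a ≤ 3 := by omega
    have hb : b ≤ 3 := by omega
    interval_cases j <;> interval_cases a <;> interval_cases b <;> first
      | omega
      | decide

/-- sum over pairs of columns on which `w` and `w'` differ -/
theorem OA.sum_two (h : OA c) (hι : 4 ≤ Fintype.card ι) {w w' : W} (q : ι) (a : A)
    (J : Finset ι) (hJ : ∀ i ∈ J, c i w ≠ c i w') (hq : q ∉ J) :
    ∑ x ∈ univ.filter (fun x => c q x = a), (J ∩ ag c x w).card * (J ∩ ag c x w').card =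
      J.card * (J.card - 1) * Fintype.card A := by
  classical
  rw [← card_offDiag', ← dcount J.offDiag (univ.filter (fun x => c q x = a))
      (fun x e => c e.1 x = c e.1 w ∧ c e.2 x = c e.2 w') (Fintype.card A)]
  · refine Finset.sum_congr rfl fun x _ => ?_
    rw [← Finset.card_product]
    congr 1
    ext e
    simp only [mem_product, mem_inter, mem_ag, mem_filter, mem_offDiag]
    constructor
    · rintro ⟨⟨a3, a4⟩, a5, a6⟩
      refine ⟨⟨a3, a5, ?_⟩, a4, a6⟩
      intro e
      exact hJ _ a5 (by rw [← a6, ← e]; exact a4.symm)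
    · rintro ⟨⟨a3, a5, -⟩, a4, a6⟩
      exact ⟨⟨a3, a4⟩, a5, a6⟩
  · rintro ⟨i, j⟩ he
    rw [mem_offDiag] at he
    obtain ⟨h2, h3, h4⟩ := he
    have hqi : q ≠ i := by
      rintro rfl
      exact hq h2
    have hqj : q ≠ j := by
      rintro rfl
      exact hq h3
    rw [← h.card_X3 hι hqi hqj h4 a (c i w) (c j w')]
    congr 1
    ext x
    simp only [mem_filter, mem_univ, true_and, mem_X3]

theorem OA.mod_one (h : OA c) (hι : Fintype.card ι = Fintype.card A + 3)
    (hn : 2 ≤ Fintype.card A) {w w' : W} {q : ι} (hw : ag c w w' = {q}) :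
    (Fintype.card A + 2) * (Fintype.card A + 1) * (Fintype.card A * (Fintype.card A - 1)) ≡
      (Fintype.card A + 2) * (Fintype.card A + 1) * Fintype.card A [MOD 36] := by
  classical
  set J : Finset ι := ({q} : Finset ι)ᶜ with hJ
  have hJc : J.card = Fintype.card A + 2 := by
    rw [hJ, Finset.card_compl, hι, Finset.card_singleton]
    omega
  have hJm' : ∀ i, i ∈ J ↔ i ≠ q := by
    intro i
    rw [hJ, mem_compl, mem_singleton]
  have hJm : ∀ i ∈ J, c i w ≠ c i w' := by
    intro i hi hh
    have h1 : i ∈ ag c w w' := mem_ag.2 hh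
    rw [hw, mem_singleton] at h1
    exact (hJm' i).1 hi h1
  have hqw : c q w = c q w' := mem_ag.1 (by rw [hw]; simp)
  have s1 := h.sum_four w w' J hJm
  have s2 := h.sum_two (by omega) q (c q w) J hJm (by rw [hJm']; simp)
  rw [hJc] at s1 s2
  have e1 : Fintype.card A + 2 - 1 = Fintype.card A + 1 := by omega
  have e2 : Fintype.card A + 2 - 2 = Fintype.card A := by omega
  have e3 : Fintype.card A + 2 - 3 = Fintype.card A - 1 := by omega
  rw [e1, e2, e3] at s1
  rw [e1] at s2
  rw [← s1, ← s2, Finset.sum_filter]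
  have hself : ∀ y : W, ag c y y = univ := by
    intro y
    ext i
    simp [mem_ag]
  have hJq : J ∩ {q} = ∅ := by
    rw [hJ, Finset.inter_comm]
    exact Finset.inter_compl {q}
  have hlocal : ∀ x : W, (J ∩ ag c x w).offDiag.card * (J ∩ ag c x w').offDiag.card ≡
      (if c q x = c q w then (J ∩ ag c x w).card * (J ∩ ag c x w').card else 0) [MOD 36] := by
    intro x
    rw [card_offDiag', card_offDiag']
    have hsplit : ∀ y, c q y = c q w → (J ∩ ag c x y).card + (if c q x = c q w then 1 else 0) =
        (ag c x y).card := by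
      intro y hy
      by_cases hx : c q x = c q w
      · rw [if_pos hx]
        have : ag c x y = insert q (J ∩ ag c x y) := by
          ext i
          rw [mem_insert, mem_inter, hJm', mem_ag]
          constructor
          · intro hi
            by_cases hiq : i = q
            · exact Or.inl hiq
            · exact Or.inr ⟨hiq, hi⟩
          · rintro (rfl | hi)
            · rw [hx, hy]
            · exact hi.2
        conv_rhs => rw [this]
        rw [Finset.card_insert_of_notMem]
        rw [mem_inter, hJm']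
        tauto
      · rw [if_neg hx, add_zero]
        congr 1
        ext i
        rw [mem_inter, hJm', mem_ag]
        constructor
        · exact fun h => h.2
        · intro hi
          refine ⟨?_, hi⟩
          rintro rfl
          exact hx (hi.trans hy)
    have key : (J ∩ ag c x w).card * ((J ∩ ag c x w).card - 1) *
        ((J ∩ ag c x w').card * ((J ∩ ag c x w').card - 1)) ≡
        (if c q x = c q w then 1 else 0) * ((J ∩ ag c x w).card * (J ∩ ag c x w').card)
        [MOD 36] := by
      refine local_mod_one (A' := Fintype.card A + 2) ?_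
      by_cases hx : x = w
      · left
        rw [hx, hself, Finset.inter_univ, hw, hJq, hJc]
        exact ⟨rfl, rfl, if_pos rfl⟩
      by_cases hx' : x = w'
      · right; left
        rw [hx', hself, Finset.inter_univ, ag_comm c w' w, hw, hJq, hJc]
        exact ⟨rfl, rfl, if_pos hqw.symm⟩
      right; right
      have a1 := h.card_ag hx
      have a2 := h.ne_two hι hn hx
      have a3 := h.card_ag hx'
      have a4 := h.ne_two hι hn hx'
      have a5 := hsplit w rfl
      have a6 := hsplit w' hqw.symm
      refine ⟨by split_ifs <;> omega, ?_, ?_⟩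
      · rw [a5]; omega
      · rw [a6]; omega
    by_cases hx : c q x = c q w
    · rw [if_pos hx, one_mul] at key
      rw [if_pos hx]
      exact key
    · rw [if_neg hx, zero_mul] at key
      rw [if_neg hx]
      exact key
  have hsum : ∀ V : Finset W,
      ∑ x ∈ V, (J ∩ ag c x w).offDiag.card * (J ∩ ag c x w').offDiag.card ≡
      ∑ x ∈ V, (if c q x = c q w then (J ∩ ag c x w).card * (J ∩ ag c x w').card else 0)
      [MOD 36] := by
    intro V
    induction V using Finset.induction_on with
    | empty => simp [Nat.ModEq]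
    | insert x V hx ih =>
      rw [Finset.sum_insert hx, Finset.sum_insert hx]
      exact Nat.ModEq.add (hlocal x) ih
  exact hsum univ

/-- there are two words that agree on exactly one given column -/
theorem OA.exists_one (h : OA c) (hι : Fintype.card ι = Fintype.card A + 3)
    (hn : 2 ≤ Fintype.card A) (w : W) (q : ι) : ∃ w', ag c w w' = {q} := by
  classical
  by_contra hcon
  push Not at hcon
  set V : Finset W := (univ.filter fun x => c q x = c q w).erase w with hV
  set P : Finset ι := univ.erase q with hP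
  have hPc : P.card = Fintype.card A + 2 := by
    rw [hP, Finset.card_erase_of_mem (mem_univ _), Finset.card_univ, hι]
    omega
  have hVc : V.card = Fintype.card A ^ 3 - 1 := by
    rw [hV, Finset.card_erase_of_mem (by simp), h.card_X1 (by omega) q]
  have s1 : ∑ x ∈ V, (P.filter fun i => c i x = c i w).card =
      (Fintype.card A + 2) * (Fintype.card A ^ 2 - 1) := by
    rw [← hPc, ← dcount P V (fun x i => c i x = c i w) (Fintype.card A ^ 2 - 1)]
    intro i hi
    rw [hP, mem_erase] at hi
    rw [← h.card_X2 (by omega) hi.1.symm (c q w) (c i w),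
      ← Finset.card_erase_of_mem (a := w) (by simp)]
    congr 1
    ext x
    simp only [hV, mem_filter, mem_erase, mem_univ, true_and]
    tauto
  have s3 : ∀ x ∈ V, (P.filter fun i => c i x = c i w).card = 2 := by
    intro x hx
    rw [hV, mem_erase, mem_filter] at hx
    have a1 := h.card_ag hx.1
    have a2 := h.ne_two hι hn hx.1
    have e1 : ag c x w = insert q (P.filter fun i => c i x = c i w) := by
      ext i
      rw [mem_insert, mem_filter, hP, mem_erase, mem_ag]
      constructor
      · intro hi
        by_cases hiq : i = q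
        · exact Or.inl hiq
        · exact Or.inr ⟨⟨hiq, mem_univ _⟩, hi⟩
      · rintro (rfl | hi)
        · exact hx.2.2
        · exact hi.2
    have e2 := congrArg Finset.card e1
    rw [Finset.card_insert_of_notMem (by rw [mem_filter, hP, mem_erase]; tauto)] at e2
    have e3 : (P.filter fun i => c i x = c i w).card ≠ 0 := by
      intro h0
      rw [Finset.card_eq_zero] at h0
      rw [h0] at e1
      apply hcon x
      rw [ag_comm, e1]
      rfl
    omega
  rw [Finset.sum_congr rfl s3, Finset.sum_const, smul_eq_mul, hVc] at s1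
  obtain ⟨m, hm⟩ : ∃ m, Fintype.card A = m + 2 := ⟨Fintype.card A - 2, by omega⟩
  rw [hm] at s1
  have e1 : (m + 2) ^ 3 - 1 = (m + 1) * (m ^ 2 + 5 * m + 7) := by
    have : (m + 2) ^ 3 = (m + 1) * (m ^ 2 + 5 * m + 7) + 1 := by ring
    omega
  have e2 : (m + 2) ^ 2 - 1 = (m + 1) * (m + 3) := by
    have : (m + 2) ^ 2 = (m + 1) * (m + 3) + 1 := by ring
    omega
  rw [e1, e2] at s1
  have e3 : (m ^ 2 + 5 * m + 7) * 2 = (m + 4) * (m + 3) := by
    have h5 : (m + 1) * ((m ^ 2 + 5 * m + 7) * 2) = (m + 1) * ((m + 4) * (m + 3)) := by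
      calc (m + 1) * ((m ^ 2 + 5 * m + 7) * 2) = (m + 1) * (m ^ 2 + 5 * m + 7) * 2 := by ring
        _ = (m + 2 + 2) * ((m + 1) * (m + 3)) := s1
        _ = (m + 1) * ((m + 4) * (m + 3)) := by ring
    exact Nat.eq_of_mul_eq_mul_left (by omega) h5
  nlinarith [e3]

/-- `4` divides `n (n + 1)` -/
theorem OA.dvd_four (h : OA c) (hι : Fintype.card ι = Fintype.card A + 3)
    (hn : 3 ≤ Fintype.card A) {w w' : W} {q : ι} (hw : ag c w w' = {q}) :
    4 ∣ (Fintype.card A + 1) * Fintype.card A := by
  classical
  obtain ⟨p, hpq, -, -⟩ := exists_fourth (ι := ι) (by omega) q q q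
  obtain ⟨a, ha⟩ : ∃ a, a ∉ ({c p w, c p w'} : Finset A) := by
    by_contra hcon
    push Not at hcon
    have h1 : (univ : Finset A) ⊆ {c p w, c p w'} := fun a _ => hcon a
    have h2 := (Finset.card_le_card h1).trans Finset.card_le_two
    rw [Finset.card_univ] at h2
    omega
  rw [mem_insert, mem_singleton, not_or] at ha
  set J : Finset ι := ({p, q} : Finset ι)ᶜ with hJ
  have hJc : J.card = Fintype.card A + 1 := by
    rw [hJ, Finset.card_compl, hι, Finset.card_pair hpq]
    omega
  have hJm' : ∀ i, i ∈ J ↔ i ≠ p ∧ i ≠ q := by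
    intro i
    rw [hJ, mem_compl, mem_insert, mem_singleton, not_or]
  have hJm : ∀ i ∈ J, c i w ≠ c i w' := by
    intro i hi hh
    have h1 : i ∈ ag c w w' := mem_ag.2 hh
    rw [hw, mem_singleton] at h1
    exact ((hJm' i).1 hi).2 h1
  have hqw : c q w = c q w' := mem_ag.1 (by rw [hw]; simp)
  set V : Finset W := univ.filter fun x => c p x = a ∧ c q x = c q w with hV
  have s2 : ∑ x ∈ V, (J ∩ ag c x w).card * (J ∩ ag c x w').card =
      (Fintype.card A + 1) * Fintype.card A := by
    have e0 : J.offDiag.card = (Fintype.card A + 1) * Fintype.card A := by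
      rw [card_offDiag', hJc, Nat.add_sub_cancel]
    rw [← e0, ← mul_one J.offDiag.card, ← dcount J.offDiag V
      (fun x e => c e.1 x = c e.1 w ∧ c e.2 x = c e.2 w') 1]
    · refine Finset.sum_congr rfl fun x _ => ?_
      rw [← Finset.card_product]
      congr 1
      ext e
      simp only [mem_product, mem_inter, mem_ag, mem_filter, mem_offDiag]
      constructor
      · rintro ⟨⟨a3, a4⟩, a5, a6⟩
        refine ⟨⟨a3, a5, ?_⟩, a4, a6⟩
        intro e
        exact hJm _ a5 (by rw [← a6, ← e]; exact a4.symm)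
      · rintro ⟨⟨a3, a5, -⟩, a4, a6⟩
        exact ⟨⟨a3, a4⟩, a5, a6⟩
    · rintro ⟨i, j⟩ he
      rw [mem_offDiag] at he
      obtain ⟨h2, h3, h4⟩ := he
      obtain ⟨i1, i2⟩ := (hJm' i).1 h2
      obtain ⟨j1, j2⟩ := (hJm' j).1 h3
      rw [← h.card_X4 hpq i1.symm j1.symm i2.symm j2.symm h4 a (c q w) (c i w) (c j w'), hV]
      congr 1
      ext x
      simp only [mem_filter, mem_univ, true_and]
      tauto
  rw [← s2]
  refine Finset.dvd_sum fun x hx => ?_
  rw [hV, mem_filter] at hx
  obtain ⟨-, hx1, hx2⟩ := hx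
  have key : ∀ y, c q y = c q w → c p y ≠ a → (J ∩ ag c x y).card = 0 ∨
      (J ∩ ag c x y).card = 2 := by
    intro y hy hya
    have hxy : x ≠ y := by
      rintro rfl
      exact hya hx1
    have a1 := h.card_ag hxy
    have a2 := h.ne_two hι (by omega) hxy
    have e1 : ag c x y = insert q (J ∩ ag c x y) := by
      ext i
      rw [mem_insert, mem_inter, hJm', mem_ag]
      constructor
      · intro hi
        by_cases hiq : i = q
        · exact Or.inl hiq
        · refine Or.inr ⟨⟨?_, hiq⟩, hi⟩
          rintro rfl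
          exact hya (hi.symm.trans hx1)
      · rintro (rfl | hi)
        · rw [hx2, hy]
        · exact hi.2
    have e2 := congrArg Finset.card e1
    rw [Finset.card_insert_of_notMem (by rw [mem_inter, hJm']; tauto)] at e2
    omega
  rcases key w rfl (Ne.symm ha.1) with e | e <;>
    rcases key w' hqw.symm (Ne.symm ha.2) with e' | e' <;> rw [e, e'] <;> norm_num

/-- **No array with `n + 3` columns** if `n ≥ 4` is even and not divisible by `36`. -/
theorem OA.no_three' (h : OA c) (hι : Fintype.card ι = Fintype.card A + 3)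
    (hn : 4 ≤ Fintype.card A) (hev : Even (Fintype.card A)) (h36 : ¬ 36 ∣ Fintype.card A) :
    False := by
  by_cases h3 : 3 ∣ Fintype.card A
  · obtain ⟨q⟩ : Nonempty ι := Fintype.card_pos_iff.1 (by omega)
    have hW : Nonempty W := by
      obtain ⟨S, -, hS⟩ := Finset.exists_subset_card_eq
        (show 4 ≤ (Finset.univ : Finset ι).card by rw [Finset.card_univ]; omega)
      obtain ⟨i, j, k, l, h1, h2, h3, h4, h5, h6, -⟩ := Finset.card_eq_four.1 hS
      obtain ⟨a⟩ : Nonempty A := Fintype.card_pos_iff.1 (by omega)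
      obtain ⟨x, -, -⟩ := h i j k l h1 h2 h3 h4 h5 h6 a a a a
      exact ⟨x⟩
    obtain ⟨w⟩ := hW
    obtain ⟨w', hw'⟩ := h.exists_one hι (by omega) w q
    have m1 := h.mod_one hι (by omega) hw'
    have m4 := h.dvd_four hι (by omega) hw'
    generalize Fintype.card A = n at *
    have h4 : 4 ∣ n := by
      have hc : Nat.Coprime 4 (n + 1) := by
        rw [show (4 : ℕ) = 2 ^ 2 from rfl]
        refine Nat.Coprime.pow_left 2 ?_
        rw [Nat.coprime_two_left]
        exact Even.add_one hev
      exact hc.dvd_of_dvd_mul_left m4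
    obtain ⟨m, rfl⟩ : ∃ m, n = m + 4 := ⟨n - 4, by omega⟩
    have e1 : m + 4 - 1 = m + 3 := by omega
    rw [e1] at m1
    have m1' := Nat.ModEq.of_dvd (by norm_num : (9 : ℕ) ∣ 36) m1
    unfold Nat.ModEq at m1'
    have hm : m % 9 < 9 := Nat.mod_lt _ (by norm_num)
    have h9 : ¬ 9 ∣ m + 4 := by
      intro h9
      exact h36 (Nat.Coprime.mul_dvd_of_dvd_of_dvd (by norm_num : Nat.Coprime 4 9) h4 h9)
    rw [Nat.dvd_iff_mod_eq_zero] at h3 h9
    have key : ∀ s < 9, m % 9 = s → False := by
      intro s hs hms
      interval_cases s <;>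
        simp [Nat.add_mod, Nat.mul_mod, hms] at m1' <;> omega
    exact key _ hm rfl
  · exact h.no_three hι hn h3

theorem OA.no_two_more' (h : OA c) (hι : Fintype.card ι = Fintype.card A + 2)
    (hn : 4 ≤ Fintype.card A) (hev : Even (Fintype.card A)) (h36 : ¬ 36 ∣ Fintype.card A) :
    False := by
  obtain ⟨f, hf⟩ := h.extend hι (by omega) hev
  have h1 := h.ext (by omega) hf
  exact h1.no_three' (by rw [Fintype.card_option, hι]) hn hev h36

end Run7.h412.KP
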