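import Pool.Agent.Run7.h412.KP.Cnt

set_option autoImplicit false
set_option linter.unusedSectionVars false

/-!
# Words that agree on three columns; the contradiction
-/

namespace Run7.h412.KP

open Finset

variable {ι W A : Type} [Fintype ι] [DecidableEq ι] [Fintype W] [DecidableEq W] [Fintype A]
  [DecidableEq A] {c : ι → W → A}

theorem local_mod {a b j A' : ℕ} (h : (a = A' ∧ b = 0 ∧ j = 3) ∨ (a = 0 ∧ b = A' ∧ j = 3) ∨
    ((a + j = 0 ∨ a + j = 1 ∨ a + j = 3) ∧ (b + j = 0 ∨ b + j = 1 ∨ b + j = 3))) :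
    a * (a - 1) * (b * (b - 1)) + j * (j - 1) ≡ j * (a * b) + (if j = 3 then 6 else 0)
      [MOD 36] := by
  rcases h with ⟨rfl, rfl, rfl⟩ | ⟨rfl, rfl, rfl⟩ | ⟨h1, h2⟩
  · simp [Nat.ModEq]
  · simp [Nat.ModEq]
  · have ha : a ≤ 3 := by omega
    have hb : b ≤ 3 := by omega
    have hj : j ≤ 3 := by omega
    interval_cases j <;> interval_cases a <;> interval_cases b <;> first
      | omega
      | decide

theorem OA.mod_three (h : OA c) (hι : Fintype.card ι = Fintype.card A + 3)
    (hn : 2 ≤ Fintype.card A) {w w' : W} (hw : (ag c w w').card = 3) :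
    Fintype.card A * (Fintype.card A - 1) * ((Fintype.card A - 2) * (Fintype.card A - 3)) +
      3 * 2 * Fintype.card A ^ 2 ≡
      3 * (Fintype.card A * (Fintype.card A - 1)) * Fintype.card A + Fintype.card A * 6
      [MOD 36] := by
  classical
  set S : Finset ι := ag c w w' with hS
  set J : Finset ι := Sᶜ with hJ
  have hJc : J.card = Fintype.card A := by
    rw [hJ, Finset.card_compl, hι, hw]
    omega
  have hJm : ∀ i ∈ J, c i w ≠ c i w' := by
    intro i hi hh
    rw [hJ, mem_compl, hS, mem_ag] at hi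
    exact hi hh
  have hSm : ∀ i ∈ S, c i w = c i w' := fun i hi => mem_ag.1 hi
  have s1 := h.sum_four w w' J hJm
  rw [hJc] at s1
  have s2 : ∑ x : W, (S ∩ ag c x w).card * ((J ∩ ag c x w).card * (J ∩ ag c x w').card) =
      3 * (Fintype.card A * (Fintype.card A - 1)) * Fintype.card A := by
    have e1 : (S ×ˢ J.offDiag).card = 3 * (Fintype.card A * (Fintype.card A - 1)) := by
      rw [Finset.card_product, hw, card_offDiag', hJc]
    rw [← e1, ← dcount (S ×ˢ J.offDiag) (univ : Finset W)
      (fun x e => c e.1 x = c e.1 w ∧ c e.2.1 x = c e.2.1 w ∧ c e.2.2 x = c e.2.2 w')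
      (Fintype.card A)]
    · refine Finset.sum_congr rfl fun x _ => ?_
      rw [← Finset.card_product, ← Finset.card_product]
      congr 1
      ext e
      simp only [mem_product, mem_inter, mem_ag, mem_filter, mem_offDiag]
      constructor
      · rintro ⟨⟨a1, a2⟩, ⟨a3, a4⟩, a5, a6⟩
        refine ⟨⟨a1, a3, a5, ?_⟩, a2, a4, a6⟩
        intro e
        exact hJm _ a5 (by rw [← a6, ← e]; exact a4.symm)
      · rintro ⟨⟨a1, a3, a5, -⟩, a2, a4, a6⟩
        exact ⟨⟨a1, a2⟩, ⟨a3, a4⟩, a5, a6⟩
    · rintro ⟨s, i, j⟩ he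
      rw [mem_product, mem_offDiag] at he
      obtain ⟨h1, h2, h3, h4⟩ := he
      have hsi : s ≠ i := by
        rintro rfl
        exact hJm _ h2 (hSm _ h1)
      have hsj : s ≠ j := by
        rintro rfl
        exact hJm _ h3 (hSm _ h1)
      exact h.card_X3 (by omega) hsi hsj h4 _ _ _
  have s3 : ∑ x : W, (S ∩ ag c x w).offDiag.card = 3 * 2 * Fintype.card A ^ 2 := by
    have e1 : S.offDiag.card = 3 * 2 := by rw [card_offDiag', hw]
    rw [← e1, ← dcount S.offDiag (univ : Finset W)
      (fun x e => c e.1 x = c e.1 w ∧ c e.2 x = c e.2 w) (Fintype.card A ^ 2)]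
    · refine Finset.sum_congr rfl fun x _ => ?_
      congr 1
      ext e
      simp only [mem_inter, mem_ag, mem_filter, mem_offDiag]
      tauto
    · intro e he
      rw [mem_offDiag] at he
      exact h.card_X2 (by omega) he.2.2 _ _
  have s4 : ∑ x : W, (if (S ∩ ag c x w).card = 3 then 6 else 0) = Fintype.card A * 6 := by
    rw [← Finset.sum_filter, Finset.sum_const, smul_eq_mul]
    congr 1
    obtain ⟨i, j, k, h1, h2, h3, he⟩ := Finset.card_eq_three.1 hw
    rw [← h.card_X3 (by omega) h1 h2 h3 (c i w) (c j w) (c k w)]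
    congr 1
    ext x
    rw [mem_filter, mem_X3]
    constructor
    · rintro ⟨-, h4⟩
      have h5 : S ∩ ag c x w = S := Finset.eq_of_subset_of_card_le inter_subset_left
        (by rw [h4, hw])
      have h6 : S ⊆ ag c x w := by
        rw [← h5]
        exact inter_subset_right
      rw [he] at h6
      exact ⟨mem_ag.1 (h6 (by simp)), mem_ag.1 (h6 (by simp)), mem_ag.1 (h6 (by simp))⟩
    · rintro ⟨h4, h5, h6⟩
      refine ⟨mem_univ _, ?_⟩
      have h7 : S ∩ ag c x w = S := by
        rw [Finset.inter_eq_left, he]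
        intro r hr
        simp only [mem_insert, mem_singleton] at hr
        rcases hr with rfl | rfl | rfl
        · exact mem_ag.2 h4
        · exact mem_ag.2 h5
        · exact mem_ag.2 h6
      rw [h7, hw]
  rw [← s1, ← s2, ← s3, ← s4, ← Finset.sum_add_distrib, ← Finset.sum_add_distrib]
  -- the local congruence
  have hlocal : ∀ x : W, (J ∩ ag c x w).offDiag.card * (J ∩ ag c x w').offDiag.card +
      (S ∩ ag c x w).offDiag.card ≡
      (S ∩ ag c x w).card * ((J ∩ ag c x w).card * (J ∩ ag c x w').card) +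
        (if (S ∩ ag c x w).card = 3 then 6 else 0) [MOD 36] := by
    intro x
    rw [card_offDiag', card_offDiag', card_offDiag']
    refine local_mod (A' := Fintype.card A) ?_
    have hsplit : ∀ T : Finset ι, (J ∩ T).card + (S ∩ T).card = T.card := by
      intro T
      rw [add_comm, ← Finset.card_union_of_disjoint, ← Finset.union_inter_distrib_right, hJ,
        Finset.union_compl, Finset.univ_inter]
      rw [Finset.disjoint_left]
      intro i hi hi'
      rw [mem_inter] at hi hi'
      rw [hJ, mem_compl] at hi'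
      exact hi'.1 hi.1
    have hSS : S ∩ ag c x w = S ∩ ag c x w' := by
      ext i
      rw [mem_inter, mem_inter]
      constructor
      · rintro ⟨h1, h2⟩
        exact ⟨h1, mem_ag.2 ((mem_ag.1 h2).trans (hSm i h1))⟩
      · rintro ⟨h1, h2⟩
        exact ⟨h1, mem_ag.2 ((mem_ag.1 h2).trans (hSm i h1).symm)⟩
    have hself : ∀ y : W, ag c y y = univ := by
      intro y
      ext i
      simp [mem_ag]
    have hJS : J ∩ S = ∅ := by
      rw [hJ, Finset.inter_comm]
      exact Finset.inter_compl S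
    by_cases hx : x = w
    · left
      rw [hx, hself, Finset.inter_univ, Finset.inter_univ, ← hS, hJS, hJc, hw]
      exact ⟨rfl, rfl, rfl⟩
    by_cases hx' : x = w'
    · right; left
      rw [hx', hself, Finset.inter_univ, ag_comm c w' w, ← hS, hJS, hJc, Finset.inter_self, hw]
      exact ⟨rfl, rfl, rfl⟩
    right; right
    have a1 := h.card_ag hx
    have a2 := h.ne_two hι hn hx
    have a3 := h.card_ag hx'
    have a4 := h.ne_two hι hn hx'
    have a5 := hsplit (ag c x w)
    have a6 := hsplit (ag c x w')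
    rw [← hSS] at a6
    constructor
    · rw [a5]
      omega
    · rw [a6]
      omega
  have hsum : ∀ V : Finset W,
      ∑ x ∈ V, ((J ∩ ag c x w).offDiag.card * (J ∩ ag c x w').offDiag.card +
        (S ∩ ag c x w).offDiag.card) ≡
      ∑ x ∈ V, ((S ∩ ag c x w).card * ((J ∩ ag c x w).card * (J ∩ ag c x w').card) +
        (if (S ∩ ag c x w).card = 3 then 6 else 0)) [MOD 36] := by
    intro V
    induction V using Finset.induction_on with
    | empty => simp [Nat.ModEq]
    | insert x V hx ih =>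
      rw [Finset.sum_insert hx, Finset.sum_insert hx]
      exact Nat.ModEq.add (hlocal x) ih
  exact hsum univ

/-- there are two words that agree on exactly three columns -/
theorem OA.exists_three (h : OA c) (hι : 4 ≤ Fintype.card ι)
    (hn : 2 ≤ Fintype.card A) (w : W) : ∃ w', w ≠ w' ∧ (ag c w w').card = 3 := by
  classical
  obtain ⟨S, -, hS⟩ := Finset.exists_subset_card_eq
    (show 4 ≤ (Finset.univ : Finset ι).card by rw [Finset.card_univ]; omega)
  obtain ⟨i, j, k, l, h1, h2, h3, h4, h5, h6, -⟩ := Finset.card_eq_four.1 hS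
  have : Nontrivial A := Fintype.one_lt_card_iff_nontrivial.1 (by omega)
  obtain ⟨a, ha⟩ := exists_ne (c l w)
  obtain ⟨x, ⟨e1, e2, e3, e4⟩, -⟩ := h i j k l h1 h2 h3 h4 h5 h6 (c i w) (c j w) (c k w) a
  have hne : w ≠ x := by
    rintro rfl
    exact ha e4.symm
  refine ⟨x, hne, le_antisymm (h.card_ag hne) ?_⟩
  have hsub : ({i, j, k} : Finset ι) ⊆ ag c w x := by
    intro r hr
    simp only [mem_insert, mem_singleton] at hr
    rcases hr with rfl | rfl | rfl
    · exact mem_ag.2 e1.symm
    · exact mem_ag.2 e2.symm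
    · exact mem_ag.2 e3.symm
  have := Finset.card_le_card hsub
  rwa [Finset.card_eq_three.2 ⟨i, j, k, h1, h2, h4, rfl⟩] at this

/-- **No array with `n + 3` columns** if `n ≥ 4` is not divisible by three. -/
theorem OA.no_three (h : OA c) (hι : Fintype.card ι = Fintype.card A + 3)
    (hn : 4 ≤ Fintype.card A) (h3 : ¬ 3 ∣ Fintype.card A) : False := by
  have hW : Nonempty W := by
    obtain ⟨S, -, hS⟩ := Finset.exists_subset_card_eq
      (show 4 ≤ (Finset.univ : Finset ι).card by rw [Finset.card_univ]; omega)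
    obtain ⟨i, j, k, l, h1, h2, h3, h4, h5, h6, -⟩ := Finset.card_eq_four.1 hS
    obtain ⟨a⟩ : Nonempty A := Fintype.card_pos_iff.1 (by omega)
    obtain ⟨x, -, -⟩ := h i j k l h1 h2 h3 h4 h5 h6 a a a a
    exact ⟨x⟩
  obtain ⟨w⟩ := hW
  obtain ⟨w0, hw0⟩ := h.exists_disjoint hι (by omega) w
  obtain ⟨w3, -, hw3'⟩ := h.exists_three (by omega) (by omega) w
  have m0 := h.mod_zero hι (by omega) hw0
  have m3 := h.mod_three hι (by omega) hw3'
  generalize Fintype.card A = n at *
  obtain ⟨m, rfl⟩ : ∃ m, n = m + 4 := ⟨n - 4, by omega⟩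
  have e1 : m + 4 - 1 = m + 3 := by omega
  have e2 : m + 4 - 2 = m + 2 := by omega
  have e3 : m + 4 - 3 = m + 1 := by omega
  rw [e1, e2, e3] at m3
  have m0' : 9 ∣ (m + 4 + 3) * (m + 4 + 2) * ((m + 4 + 1) * (m + 4)) :=
    (by norm_num : (9 : ℕ) ∣ 36).trans m0
  have m3' := Nat.ModEq.of_dvd (by norm_num : (9 : ℕ) ∣ 36) m3
  unfold Nat.ModEq at m3'
  have hm : m % 9 < 9 := Nat.mod_lt _ (by norm_num)
  rw [Nat.dvd_iff_mod_eq_zero] at m0'
  rw [Nat.dvd_iff_mod_eq_zero] at h3
  have key : ∀ s < 9, m % 9 = s → False := by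
    intro s hs hms
    interval_cases s <;>
      simp [Nat.add_mod, Nat.mul_mod, Nat.pow_mod, hms] at m0' m3' <;> omega
  exact key _ hm rfl

/-- **Upper bound in dimension four.** -/
theorem OA.no_two_more (h : OA c) (hι : Fintype.card ι = Fintype.card A + 2)
    (hn : 4 ≤ Fintype.card A) (hev : Even (Fintype.card A)) (h3 : ¬ 3 ∣ Fintype.card A) :
    False := by
  obtain ⟨f, hf⟩ := h.extend hι (by omega) hev
  have h1 := h.ext (by omega) hf
  exact h1.no_three (by rw [Fintype.card_option, hι]) hn h3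

end Run7.h412.KP
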